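import Mathlib

/-!
The graphical (Harris) construction of the contact process on the lattice of dimension `d`.
-/

namespace Pool.Agent.MP_452076_pr

open MeasureTheory ProbabilityTheory
open scoped NNReal ENNReal

/-- Sites of the lattice. -/
abbrev Site (d : ℕ) : Type := Fin d → ℤ

/-- Nearest neighbours. -/
def Adj {d : ℕ} (x y : Site d) : Prop := ∑ i, |x i - y i| = 1

open Classical in
/-- Intensity of the Poisson process attached to the ordered pair `(x, y)`: recovery marks at `x`
(rate one) if `x = y`, infection arrows from `x` to `y` (rate `lam`) for neighbours. -/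
noncomputable def rate {d : ℕ} (lam : ℝ≥0) (x y : Site d) : ℝ≥0 :=
  if x = y then 1 else if Adj x y then lam else 0

/-- The points of one Poisson process in one unit time interval: their number and a sequence of
positions, of which only the first ones are used. -/
abbrev Cell : Type := ℕ × (ℕ → unitInterval)

/-- A Poisson number of independent uniform points. -/
noncomputable def cellLaw (r : ℝ≥0) : Measure Cell :=
  (poissonMeasure r).prod (Measure.infinitePi fun _ : ℕ => (volume : Measure unitInterval))

/-- One cell for every ordered pair of sites and every unit time interval. -/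
abbrev Sample (d : ℕ) : Type := (Site d × Site d) × ℤ → Cell

/-- All cells are independent. -/
noncomputable def law (d : ℕ) (lam : ℝ≥0) : Measure (Sample d) :=
  Measure.infinitePi fun e : (Site d × Site d) × ℤ => cellLaw (rate lam e.1.1 e.1.2)

/-- The Poisson process attached to `(x, y)` has a point at time `t`. -/
def Mark {d : ℕ} (ω : Sample d) (x y : Site d) (t : ℝ) : Prop :=
  ∃ j : ℤ, ∃ l : ℕ, l < (ω ((x, y), j)).1 ∧ t = (j : ℝ) + ((ω ((x, y), j)).2 l : ℝ)

/-- Active paths from the space-time point `(y, s)`. -/
inductive Path {d : ℕ} (ω : Sample d) (y : Site d) (s : ℝ) : Site d → ℝ → Prop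
  | start : Path ω y s y s
  | wait {x : Site d} {u t : ℝ} : Path ω y s x u → u ≤ t →
      (∀ r, u ≤ r → r ≤ t → ¬ Mark ω x x r) → Path ω y s x t
  | jump {x z : Site d} {u : ℝ} : Path ω y s x u → Adj x z → Mark ω x z u → Path ω y s z u

open Classical in
/-- The upper stationary contact process: `x` is infected at time `t` when active paths arrive at
`(x, t)` from arbitrarily early times. -/
noncomputable def eta {d : ℕ} (ω : Sample d) (t : ℝ) (x : Site d) : Bool :=
  decide (∀ s : ℝ, s < t → ∃ y, Path ω y s x t)

/-- Survival probability of the process started from the origin. -/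
noncomputable def survival (d : ℕ) (lam : ℝ≥0) : ℝ≥0∞ :=
  law d lam {ω | ∀ t : ℝ, 0 ≤ t → ∃ y, Path ω 0 0 y t}

/-- The critical value. -/
noncomputable def lambdaC (d : ℕ) : ℝ≥0∞ :=
  ⨅ (lam : ℝ≥0) (_ : 0 < survival d lam), (lam : ℝ≥0∞)

end Pool.Agent.MP_452076_pr
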